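import Pool.Agent.R574.EM.Queue2

set_option autoImplicit false

/-!
# Mode 0 and mode 1 of two-component even matrix grammars differ

In mode 1 the pending cells of the first component are finished from left to right, so a
two-component grammar can simulate a queue; intersected with the regular language `(aa | bb)^*` its
language has quadratic growth. In mode 0, the words of a language with a prescribed value in a
finite monoid are described by a Petri net, whose runs can be amalgamated (Higman's lemma), so an
infinite family always contains an arithmetic progression of Parikh vectors.
-/

open Pool.Agent.R574.EM in
/-- There is a two-component even matrix grammar `G` over a two-letter alphabet whose mode 1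
language is not the mode 0 language of any even matrix grammar `H`, whatever the number `n` of
components of `H` (`n = 2` disproves `₂EM₀ = ₂EM₁`). -/
theorem Pool.Agent.Results.MP_767d8d_lc.ModesDiffer.result :
    ∃ G : Grammar 2 Bool, ∀ (n : ℕ) (H : Grammar n Bool), H.language false ≠ G.language true :=
  ⟨Queue.G, Queue.main⟩
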